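import Pool.Agent.J4H59.PL.Stm3

/-!
# Job CNT of the project CY: counting
-/

set_option autoImplicit false

open scoped Classical Pointwise

namespace Pool.Agent.J4H23.CY

open Pool.Agent.J4H59.PG Pool.Agent.J4H59.PL

section
variable {G : Type} [Group G] {N : Subgroup G} {t : G}

theorem mul2 (h : Tdy N t) (l : ℕ) {m : G} (hm : m ∈ N) (k : ℕ) :
    ∃ a ∈ N, ∃ b ∈ N, t ^ l * m * t ^ k = a * t ^ (l + k) * b := by
  induction k with
  | zero => exact ⟨1, N.one_mem, m, hm, by simp⟩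
  | succ k ih =>
    obtain ⟨a, ha, b, hb, e⟩ := ih
    obtain ⟨a', ha', b', hb', e'⟩ := h.mul (l + k) b hb
    refine ⟨a * a', N.mul_mem ha ha', b', hb', ?_⟩
    calc t ^ l * m * t ^ (k + 1) = (t ^ l * m * t ^ k) * t := by rw [pow_succ]; group
      _ = a * (t ^ (l + k) * b * t) := by rw [e]; group
      _ = a * (a' * t ^ (l + k + 1) * b') := by rw [e']
      _ = _ := by rw [Nat.add_assoc]; group

/-- a common subgroup of finite index -/
theorem exN0 (h : Tdy N t) (S : ℕ) : ∃ N0 : Subgroup G, N0 ≤ N ∧ N0.relIndex N ≠ 0 ∧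
    ∀ s < S, N0 ≤ cc (t ^ s)⁻¹ N := by
  induction S with
  | zero => exact ⟨N, le_rfl, by simp, fun s hs => absurd hs (Nat.not_lt_zero _)⟩
  | succ S ih =>
    obtain ⟨N0, h1, h2, h3⟩ := ih
    have hc : (t ^ S)⁻¹ ∈ Subgroup.Commensurable.commensurator N :=
      Subgroup.inv_mem _ (Subgroup.pow_mem _ h.comm S)
    have h4 := (mem_comm.1 hc).1
    refine ⟨N0 ⊓ cc (t ^ S)⁻¹ N, inf_le_left.trans h1, Subgroup.relIndex_inf_ne_zero h2 h4, ?_⟩
    intro s hs
    rcases Nat.lt_succ_iff_lt_or_eq.1 hs with h5 | h5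
    · exact inf_le_left.trans (h3 s h5)
    · subst h5; exact inf_le_right

theorem relEq {N0 A : Subgroup G} (h1 : N0 ≤ N) (h2 : N0 ≤ A) (hu : N.relIndex A = A.relIndex N) :
    N0.relIndex A = N0.relIndex N := by
  have e1 := Subgroup.relIndex_mul_relIndex N0 (N ⊓ A) N (le_inf h1 h2) inf_le_left
  have e2 := Subgroup.relIndex_mul_relIndex N0 (N ⊓ A) A (le_inf h1 h2) inf_le_right
  rw [Subgroup.inf_relIndex_left] at e1
  rw [Subgroup.inf_relIndex_right] at e2
  rw [← e1, ← e2, hu]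

theorem bound (h : Tdy N t)
    (hu : ∀ g ∈ Subgroup.Commensurable.commensurator N, N.relIndex (cc g N) = (cc g N).relIndex N)
    (Y : Finset G) (c : ℕ) (hY : ∀ i : ℕ, ∀ a ∈ N, ∀ b ∈ N, ∃ s ≤ i + c, ∃ y ∈ Y, ∃ n ∈ N,
      a * t ^ i * b = y * n * t ^ s) (k : ℕ) (_ : 1 ≤ k) :
    k * (cc (t ^ k) N).relIndex N ≤ Y.card * (2 * k + c) := by
  obtain ⟨N0, h1, h2, h3⟩ := exN0 h (2 * k + c)
  set M := N0.relIndex N with hM
  set A := cc (t ^ k) N with hA
  -- source
  let Src := Fin k × (N ⧸ A.subgroupOf N) × (N ⧸ N0.subgroupOf N)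
  have hAfin : A.relIndex N ≠ 0 := (mem_comm.1 (Subgroup.pow_mem _ h.comm k)).1
  have : Finite (N ⧸ A.subgroupOf N) := Nat.finite_of_card_ne_zero hAfin
  have : Finite (N ⧸ N0.subgroupOf N) := Nat.finite_of_card_ne_zero h2
  let Φ : Src → G ⧸ N0 := fun x =>
    (QuotientGroup.mk (t ^ (x.1 : ℕ) * (x.2.1.out : G) * t ^ k * (x.2.2.out : G)) : G ⧸ N0)
  have hinj : Function.Injective Φ := by
    rintro ⟨l, u, v⟩ ⟨l', u', v'⟩ hh
    have h5 : (t ^ (l : ℕ) * (u.out : G) * t ^ k * (v.out : G))⁻¹ *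
        (t ^ (l' : ℕ) * (u'.out : G) * t ^ k * (v'.out : G)) ∈ N0 := QuotientGroup.eq.1 hh
    set n0 := (t ^ (l : ℕ) * (u.out : G) * t ^ k * (v.out : G))⁻¹ *
        (t ^ (l' : ℕ) * (u'.out : G) * t ^ k * (v'.out : G)) with hn0
    have h6 : t ^ (l : ℕ) * (u.out : G) * t ^ k * ((v.out : G) * n0) =
        t ^ (l' : ℕ) * (u'.out : G) * t ^ k * (v'.out : G) := by rw [hn0]; group
    have hn0N : n0 ∈ N := h1 h5
    have hl : (l : ℕ) = l' := by
      obtain ⟨a, ha, b, hb, e⟩ := mul2 h l (SetLike.coe_mem u.out) k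
      obtain ⟨a', ha', b', hb', e'⟩ := mul2 h l' (SetLike.coe_mem u'.out) k
      rw [e, e'] at h6
      have h7 : t ^ ((l : ℕ) + k) = (a⁻¹ * a') * t ^ ((l' : ℕ) + k) *
          (b' * (v'.out : G) * ((v.out : G) * n0)⁻¹ * b⁻¹) := by
        have : a * t ^ ((l : ℕ) + k) * (b * ((v.out : G) * n0)) =
          a' * t ^ ((l' : ℕ) + k) * b' * (v'.out : G) := by rw [← h6]; group
        calc t ^ ((l : ℕ) + k) = a⁻¹ * (a * t ^ ((l : ℕ) + k) * (b * ((v.out : G) * n0))) *
              ((v.out : G) * n0)⁻¹ * b⁻¹ := by group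
          _ = _ := by rw [this]; group
      have := h.lev _ _ _ _ (N.mul_mem (N.inv_mem ha) ha') (N.mul_mem (N.mul_mem (N.mul_mem hb'
        (SetLike.coe_mem v'.out)) (N.inv_mem (N.mul_mem (SetLike.coe_mem v.out) hn0N)))
        (N.inv_mem hb)) h7
      omega
    have hll : l = l' := Fin.ext hl
    subst hll
    have h8 : (u.out : G) * t ^ k * ((v.out : G) * n0) = (u'.out : G) * t ^ k * (v'.out : G) := by
      have := congrArg (fun z => (t ^ (l : ℕ))⁻¹ * z) h6
      simpa [mul_assoc] using this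
    have hu1 : u = u' := by
      rw [← QuotientGroup.out_eq' u, ← QuotientGroup.out_eq' u', QuotientGroup.eq]
      rw [Subgroup.mem_subgroupOf]
      refine mem_cc.2 ?_
      have h9 : (t ^ k)⁻¹ * ((u.out⁻¹ * u'.out : N) : G) * t ^ k =
          ((v.out : G) * n0) * (v'.out : G)⁻¹ := by
        have : (u'.out : G) = (u.out : G) * t ^ k * ((v.out : G) * n0) * (v'.out : G)⁻¹ * (t ^ k)⁻¹ := by
          rw [h8]; group
        push_cast
        rw [this]; group
      rw [h9]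
      exact N.mul_mem (N.mul_mem (SetLike.coe_mem v.out) hn0N) (N.inv_mem (SetLike.coe_mem v'.out))
    subst hu1
    have hv : v = v' := by
      rw [← QuotientGroup.out_eq' v, ← QuotientGroup.out_eq' v', QuotientGroup.eq]
      rw [Subgroup.mem_subgroupOf]
      have h9 : (v.out : G) * n0 = (v'.out : G) := by
        have := congrArg (fun z => (t ^ k)⁻¹ * ((u.out : G)⁻¹ * z)) h8
        simpa [mul_assoc] using this
      have : ((v.out⁻¹ * v'.out : N) : G) = n0 := by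
        push_cast
        rw [← h9]; group
      rw [this]; exact h5
    subst hv
    rfl
  -- target
  let g : Fin (2 * k + c) → G := fun s => (t ^ (s : ℕ))⁻¹
  have hg : ∀ s, g s ∈ Subgroup.Commensurable.commensurator N := fun s =>
    Subgroup.inv_mem _ (Subgroup.pow_mem _ h.comm _)
  have hr : ∀ s : Fin (2 * k + c), N0.relIndex (cc (g s) N) = M := fun s =>
    relEq h1 (h3 s s.2) (hu _ (hg s))
  let R : (y : G) → (s : Fin (2 * k + c)) → Set (G ⧸ N0) := fun y s =>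
    Set.range (fun w : (cc (g s) N) ⧸ (N0.subgroupOf (cc (g s) N)) =>
      (QuotientGroup.mk (y * t ^ (s : ℕ) * (w.out : G)) : G ⧸ N0))
  have hfin : ∀ s : Fin (2 * k + c), Finite ((cc (g s) N) ⧸ (N0.subgroupOf (cc (g s) N))) := by
    intro s
    refine Nat.finite_of_card_ne_zero ?_
    change N0.relIndex (cc (g s) N) ≠ 0
    rw [hr s]; exact h2
  have hRfin : ∀ y s, (R y s).Finite := fun y s => by
    have := hfin s
    exact Set.finite_range _
  have hRcard : ∀ y s, (hRfin y s).toFinset.card ≤ M := by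
    intro y s
    have := hfin s
    rw [← Set.ncard_eq_toFinset_card _ (hRfin y s)]
    have h10 : (R y s).ncard ≤ Nat.card ((cc (g s) N) ⧸ (N0.subgroupOf (cc (g s) N))) := by
      have e : R y s = (fun w : (cc (g s) N) ⧸ (N0.subgroupOf (cc (g s) N)) =>
        (QuotientGroup.mk (y * t ^ (s : ℕ) * (w.out : G)) : G ⧸ N0)) '' Set.univ :=
        Set.image_univ.symm
      rw [e]
      exact (Set.ncard_image_le Set.finite_univ).trans_eq (Set.ncard_univ _)
    exact h10.trans_eq (hr s)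
  let U : Finset (G ⧸ N0) := (Y ×ˢ (Finset.univ : Finset (Fin (2 * k + c)))).biUnion
    (fun p => (hRfin p.1 p.2).toFinset)
  have hU : U.card ≤ (Y.card * (2 * k + c)) * M := by
    have := Finset.card_biUnion_le_card_mul (Y ×ˢ (Finset.univ : Finset (Fin (2 * k + c))))
      (fun p => (hRfin p.1 p.2).toFinset) M (fun p _ => hRcard p.1 p.2)
    rw [Finset.card_product, Finset.card_univ, Fintype.card_fin] at this
    exact this
  have hmem : ∀ x, Φ x ∈ U := by
    rintro ⟨l, u, v⟩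
    obtain ⟨a, ha, b, hb, e⟩ := mul2 h l (SetLike.coe_mem u.out) k
    obtain ⟨s, hs, y, hy, n, hn, e2⟩ := hY (l + k) a ha (b * (v.out : G))
      (N.mul_mem hb (SetLike.coe_mem v.out))
    have hs2 : s < 2 * k + c := by have := l.2; omega
    have e3 : t ^ (l : ℕ) * (u.out : G) * t ^ k * (v.out : G) = y * n * t ^ s := by
      rw [e, ← e2]; group
    rw [Finset.mem_biUnion]
    refine ⟨(y, ⟨s, hs2⟩), by simp [hy], ?_⟩
    rw [Set.Finite.mem_toFinset]
    have hz : (t ^ s)⁻¹ * n * t ^ s ∈ cc (g ⟨s, hs2⟩) N := by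
      rw [mem_cc]
      have : (g ⟨s, hs2⟩)⁻¹ * ((t ^ s)⁻¹ * n * t ^ s) * g ⟨s, hs2⟩ = n := by
        show ((t ^ s)⁻¹)⁻¹ * ((t ^ s)⁻¹ * n * t ^ s) * (t ^ s)⁻¹ = n
        group
      rw [this]; exact hn
    refine ⟨(QuotientGroup.mk ⟨_, hz⟩ : (cc (g ⟨s, hs2⟩) N) ⧸ _), ?_⟩
    obtain ⟨z, hz2⟩ := QuotientGroup.mk_out_eq_mul (N0.subgroupOf (cc (g ⟨s, hs2⟩) N))
      ⟨(t ^ s)⁻¹ * n * t ^ s, hz⟩
    show (QuotientGroup.mk _ : G ⧸ N0) = QuotientGroup.mk _
    rw [QuotientGroup.eq]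
    have hz3 : ((QuotientGroup.mk (⟨(t ^ s)⁻¹ * n * t ^ s, hz⟩ : cc (g ⟨s, hs2⟩) N) :
        (cc (g ⟨s, hs2⟩) N) ⧸ N0.subgroupOf (cc (g ⟨s, hs2⟩) N)).out : G) =
        (t ^ s)⁻¹ * n * t ^ s * ((z : cc (g ⟨s, hs2⟩) N) : G) := by
      rw [hz2]; rfl
    rw [hz3, e3]
    have : (y * t ^ s * ((t ^ s)⁻¹ * n * t ^ s * ((z : cc (g ⟨s, hs2⟩) N) : G)))⁻¹ *
        (y * n * t ^ s) = ((z : cc (g ⟨s, hs2⟩) N) : G)⁻¹ := by group
    rw [this]
    exact N0.inv_mem (Subgroup.mem_subgroupOf.1 z.2)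
  have hsrc : Nat.card Src = k * (A.relIndex N * M) := by
    simp only [Src, Nat.card_prod, Nat.card_fin]
    rfl
  have hle : Nat.card Src ≤ U.card := by
    have := Nat.card_le_card_of_injective (fun x : Src => (⟨Φ x, hmem x⟩ : U))
      (fun a b hab => hinj (congrArg Subtype.val hab))
    simpa using this
  have hfinal : k * (A.relIndex N * M) ≤ (Y.card * (2 * k + c)) * M := by
    rw [← hsrc]; exact hle.trans hU
  have hMpos : 0 < M := Nat.pos_of_ne_zero h2
  have : (k * A.relIndex N) * M ≤ (Y.card * (2 * k + c)) * M := by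
    rw [mul_assoc]; exact hfinal
  exact Nat.le_of_mul_le_mul_right this hMpos

theorem t_CNT : S_CNT := by
  intro G _ N t h hu Y c hY
  refine ⟨Y.card * (2 + c) + 1, fun k => ?_⟩
  rcases Nat.eq_zero_or_pos k with hk | hk
  · subst hk
    have : cc (t ^ 0) N = N := by
      ext z; rw [mem_cc]; simp
    rw [this, Subgroup.relIndex_self]
    omega
  · have h1 := bound h hu Y c hY k hk
    have h2 : Y.card * (2 * k + c) ≤ k * (Y.card * (2 + c)) := by
      have : 2 * k + c ≤ k * (2 + c) := by nlinarith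
      calc Y.card * (2 * k + c) ≤ Y.card * (k * (2 + c)) := Nat.mul_le_mul_left _ this
        _ = _ := by ring
    have h3 := Nat.le_of_mul_le_mul_left (h1.trans h2) hk
    omega
end

end Pool.Agent.J4H23.CY
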